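import Pool.Agent.H13.NS

open Filter

namespace Pool.Agent.Results.MP_c54df4_lc.NoDivisor

open Pool.Agent.H13.NS

theorem result : ∃ (I : Type 1) (W : Ultrafilter I), Enl W ∧ ∃ F G : Ultrafilter ℕ+, TDvd F G ∧
    ∃ y ∈ monad W G, ∀ x ∈ monad W F, ¬ ∃ z, y = x * z := by
  obtain ⟨H, h1, h2⟩ := exists_gen
  obtain ⟨I, W, π, hE, hπ, hW⟩ := exists_enl (H.map Prod.fst)
  let q : ℕ × ℕ → ℕ+ := fun s => pr (Nat.pair s.1 s.2)
  let y : ℕ → ℕ+ := fun n => ∏ j ∈ Finset.range (n + 1), q (n, j)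
  refine ⟨I, W, hE, H.map q, (H.map Prod.fst).map y, fun A hA => ?_,
    (y ∘ π : I → ℕ+), fun A hA => ?_, fun x hx ⟨z, hz⟩ => ?_⟩
  · refine mem_of_superset (f := (H : Filter (ℕ × ℕ))) (inter_mem h1 hA) fun s hs => ⟨q s, hs.2, ?_⟩
    exact Finset.dvd_prod_of_mem (fun j => q (s.1, j)) (Finset.mem_range.2 (Nat.lt_succ_of_le hs.1))
  · rw [← hπ] at hA
    exact hA
  · induction x using Germ.inductionOn with | _ f => ?_
    induction z using Germ.inductionOn with | _ g => ?_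
    have hz' : ∀ᶠ i in (W : Filter I), y (π i) = f i * g i := Germ.coe_eq.1 hz
    have hd : ∀ᶠ i in (W : Filter I), f i ∣ y (π i) := hz'.mono fun i hi => ⟨_, hi⟩
    obtain ⟨c, hc⟩ := hW f (fun n => Set.Iic (y n)) (fun n => Set.finite_Iic _)
      (hd.mono fun i hi => PNat.le_of_dvd hi)
    have hA : q '' {s | q s = c s.1}ᶜ ∈ H.map q := by
      refine image_mem_map (f := (H : Filter (ℕ × ℕ))) (h2 {s | q s = c s.1} fun n j j' a b => ?_)
      have := pr_dvd (a := Nat.pair n j) (b := Nat.pair n j') (by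
        rw [show pr (Nat.pair n j) = pr (Nat.pair n j') from a.trans b.symm])
      exact (Nat.pair_eq_pair.1 this).2
    have h3 : ∀ᶠ i in (W : Filter I), f i ∈ q '' {s | q s = c s.1}ᶜ := hx _ hA
    obtain ⟨i, ⟨s, a1, a2⟩, a3, a4⟩ := (h3.and (hc.and hd)).exists
    rw [← a2, PNat.dvd_iff] at a4
    replace a4 : (q s : ℕ) ∣ ∏ j ∈ Finset.range (π i + 1), (q (π i, j) : ℕ) := by
      rwa [show (y (π i) : ℕ) = _ from map_prod PNat.coeMonoidHom _ _] at a4
    obtain ⟨j, -, hj⟩ := (pr_prime _).prime.exists_mem_finset_dvd a4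
    have := (Nat.pair_eq_pair.1 (pr_dvd hj)).1
    exact a1 (by rw [Set.mem_ofPred_eq, this, a2, a3])

end Pool.Agent.Results.MP_c54df4_lc.NoDivisor
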